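import Pool.Agent.H557Z.PottsMain

/-!
The censoring inequality fails for the ferromagnetic `q`-state Potts model started from a constant
configuration, for every `q ≥ 3`: triangle `0,1,2`, pendant edges `03`, `14`, four isolated
vertices, `exp β = q³`, updates `2,3,1,0,1,2`, censored to `2,3,0,1,2`.
-/

namespace Pool.Agent.Results.MP_82263f_pr.AFerroCounter

open Pool.Agent.H557Z.Potts

theorem result (q : ℕ) (hq : 3 ≤ q) (g : Fin q) :
    ∃ (n : ℕ) (G : SimpleGraph (Fin n)) (β : ℝ) (v w : List (Fin n)),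
      0 < β ∧ w.Sublist v ∧
      tv (law G β g w) (gibbs G β) < tv (law G β g v) (gibbs G β) := by
  have hQ : (3 : ℝ) ≤ q := by exact_mod_cast hq
  refine ⟨9, G0, Real.log ((q : ℝ) ^ 3), [2, 3, 1, 0, 1, 2], [2, 3, 0, 1, 2], ?_, by decide,
    main hq g⟩
  exact Real.log_pos (one_lt_pow₀ (by linarith) (by norm_num))

end Pool.Agent.Results.MP_82263f_pr.AFerroCounter
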